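import Mathlib

open Real Set
open scoped ContDiff

namespace Pool.Agent.Q83.Mey

lemma glue_le (N : ℕ) (x : ℝ) : expNegInvGlue x ≤ N.factorial * |x| ^ N := by
  rcases le_or_gt x 0 with h | h
  · rw [expNegInvGlue.zero_of_nonpos h]; positivity
  · unfold expNegInvGlue
    rw [if_neg (not_le.2 h), abs_of_pos h]
    have h1 := Real.pow_div_factorial_le_exp (x⁻¹) (by positivity) N
    rw [Real.exp_neg]
    have h2 : 0 < x⁻¹ ^ N / N.factorial := by positivity
    calc (Real.exp x⁻¹)⁻¹ ≤ (x⁻¹ ^ N / N.factorial)⁻¹ := inv_anti₀ h2 h1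
      _ = N.factorial * x ^ N := by rw [inv_div, inv_pow, div_inv_eq_mul]

lemma glue_mono {x y : ℝ} (h : x ≤ y) : expNegInvGlue x ≤ expNegInvGlue y := by
  rcases le_or_gt x 0 with hx | hx
  · rw [expNegInvGlue.zero_of_nonpos hx]; exact expNegInvGlue.nonneg y
  · unfold expNegInvGlue
    rw [if_neg (not_le.2 hx), if_neg (not_le.2 (hx.trans_le h))]
    apply Real.exp_le_exp.2
    rw [neg_le_neg_iff]
    exact inv_anti₀ hx h

lemma glue_le_one (x : ℝ) : expNegInvGlue x ≤ 1 := by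
  have := glue_le 0 x
  simpa using this

noncomputable def Bu (u : ℝ) : ℝ := expNegInvGlue (u - 1 / 2) * expNegInvGlue (3 / 5 - u)

lemma Bu_nonneg (u : ℝ) : 0 ≤ Bu u := mul_nonneg (expNegInvGlue.nonneg _) (expNegInvGlue.nonneg _)

lemma Bu_le (u : ℝ) : Bu u ≤ 1 / 4 := by
  unfold Bu
  rcases le_or_gt (u - 1 / 2) 0 with h | h
  · rw [expNegInvGlue.zero_of_nonpos h]; norm_num
  rcases le_or_gt (3 / 5 - u) 0 with h' | h'
  · rw [expNegInvGlue.zero_of_nonpos h']; norm_num
  have h1 := glue_le 1 (u - 1 / 2)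
  have h2 := glue_le_one (3 / 5 - u)
  rw [abs_of_pos h] at h1
  simp only [Nat.factorial_one, Nat.cast_one, one_mul, pow_one] at h1
  have h3 := expNegInvGlue.nonneg (u - 1 / 2)
  have h4 := expNegInvGlue.nonneg (3 / 5 - u)
  calc _ ≤ expNegInvGlue (u - 1 / 2) * 1 := mul_le_mul_of_nonneg_left h2 h3
    _ ≤ 1 / 4 := by linarith

lemma Bu_zero_left {u : ℝ} (h : u ≤ 1 / 2) : Bu u = 0 := by
  unfold Bu; rw [expNegInvGlue.zero_of_nonpos (by linarith), zero_mul]

lemma Bu_zero_right {u : ℝ} (h : 3 / 5 ≤ u) : Bu u = 0 := by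
  unfold Bu; rw [expNegInvGlue.zero_of_nonpos (x := 3 / 5 - u) (by linarith), mul_zero]

lemma Bu_pos {u : ℝ} (h : 1 / 2 < u) (h' : u < 3 / 5) : 0 < Bu u :=
  mul_pos (expNegInvGlue.pos_of_pos (by linarith)) (expNegInvGlue.pos_of_pos (by linarith))

lemma Bu_smooth : ContDiff ℝ ∞ Bu := by
  unfold Bu
  exact (expNegInvGlue.contDiff.comp (by fun_prop)).mul (expNegInvGlue.contDiff.comp (by fun_prop))

/-- the transition function -/
noncomputable def Su (u : ℝ) : ℝ := Real.smoothTransition (1 / 2 - u) + Bu u - Bu (-u)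

lemma st_symm (x : ℝ) : Real.smoothTransition x + Real.smoothTransition (1 - x) = 1 := by
  unfold Real.smoothTransition
  have h := Real.smoothTransition.pos_denom x
  have e : 1 - (1 - x) = x := by ring
  rw [e, add_comm (expNegInvGlue (1 - x)), ← add_div, div_self h.ne']

lemma Su_symm (u : ℝ) : Su u + Su (-u) = 1 := by
  unfold Su
  have h := st_symm (1 / 2 - u)
  have e : (1 : ℝ) - (1 / 2 - u) = 1 / 2 - -u := by ring
  rw [e] at h
  rw [neg_neg]
  linarith

lemma Su_nonneg (u : ℝ) : 0 ≤ Su u := by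
  unfold Su
  have h1 := Real.smoothTransition.nonneg (1 / 2 - u)
  have h2 := Bu_nonneg u
  rcases le_or_gt (-u) (1 / 2) with h | h
  · rw [Bu_zero_left h]; linarith
  · rw [Real.smoothTransition.one_of_one_le (by linarith)]
    have := Bu_le (-u)
    linarith

lemma Su_le_one (u : ℝ) : Su u ≤ 1 := by
  have h1 := Su_symm u
  have h2 := Su_nonneg (-u)
  linarith

lemma Su_left {u : ℝ} (h : u ≤ -(3 / 5)) : Su u = 1 := by
  unfold Su
  rw [Real.smoothTransition.one_of_one_le (by linarith), Bu_zero_left (by linarith),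
    Bu_zero_right (u := -u) (by linarith)]
  ring

lemma Su_right {u : ℝ} (h : 3 / 5 ≤ u) : Su u = 0 := by
  have h1 := Su_symm u
  rw [Su_left (u := -u) (by linarith)] at h1
  linarith

lemma Su_lt {u : ℝ} (h : -(3 / 5) < u) (h' : u ≠ -(1 / 2)) : Su u < 1 := by
  unfold Su
  rcases lt_or_gt_of_ne h' with h1 | h1
  · have h2 := Real.smoothTransition.le_one (1 / 2 - u)
    rw [Bu_zero_left (u := u) (by linarith)]
    have := Bu_pos (u := -u) (by linarith) (by linarith)
    linarith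
  · have h2 := Real.smoothTransition.lt_one_of_lt_one (x := 1 / 2 - u) (by linarith)
    rw [Bu_zero_left (u := -u) (by linarith)]
    rcases le_or_gt u (1 / 2) with h3 | h3
    · rw [Bu_zero_left h3]; linarith
    · rw [Real.smoothTransition.zero_of_nonpos (by linarith)]
      have := Bu_le u
      linarith

lemma Su_flat (N : ℕ) : ∃ C : ℝ, 0 ≤ C ∧ ∀ v, Su v ≤ C * |v - 1 / 2| ^ N := by
  have hd : 0 < expNegInvGlue (1 / 2) := expNegInvGlue.pos_of_pos (by norm_num)
  refine ⟨N.factorial / expNegInvGlue (1 / 2) + N.factorial, by positivity, fun v => ?_⟩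
  have h1 : Real.smoothTransition (1 / 2 - v) ≤ N.factorial / expNegInvGlue (1 / 2) * |v - 1 / 2| ^ N := by
    unfold Real.smoothTransition
    have h2 : expNegInvGlue (1 / 2) ≤ expNegInvGlue (1 / 2 - v) + expNegInvGlue (1 - (1 / 2 - v)) := by
      rcases le_total (1 / 2 : ℝ) (1 / 2 - v) with h | h
      · have := glue_mono h
        have := expNegInvGlue.nonneg (1 - (1 / 2 - v))
        linarith
      · have := glue_mono (show (1 / 2 : ℝ) ≤ 1 - (1 / 2 - v) by linarith)
        have := expNegInvGlue.nonneg (1 / 2 - v)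
        linarith
    have h3 := glue_le N (1 / 2 - v)
    rw [abs_sub_comm] at h3
    rw [div_mul_eq_mul_div]
    exact div_le_div₀ (by positivity) h3 hd h2
  have h4 : Bu v ≤ N.factorial * |v - 1 / 2| ^ N := by
    unfold Bu
    have h5 := glue_le N (v - 1 / 2)
    have h6 := glue_le_one (3 / 5 - v)
    have h7 := expNegInvGlue.nonneg (v - 1 / 2)
    calc _ ≤ expNegInvGlue (v - 1 / 2) * 1 := mul_le_mul_of_nonneg_left h6 h7
      _ ≤ _ := by linarith
  have h8 := Bu_nonneg (-v)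
  unfold Su
  rw [add_mul]
  linarith

lemma Su_smooth : ContDiff ℝ ∞ Su := by
  unfold Su
  exact ((Real.smoothTransition.contDiff.comp (by fun_prop)).add Bu_smooth).sub
    (Bu_smooth.comp (by fun_prop))

/-- the filter as a function of the cosine -/
noncomputable def Mu (u : ℝ) : ℝ := Real.cos (π / 2 * Su u)

lemma Mu_smooth : ContDiff ℝ ∞ Mu := Real.contDiff_cos.comp (contDiff_const.mul Su_smooth)

lemma Mu_sq (u : ℝ) : Mu u ^ 2 + Mu (-u) ^ 2 = 1 := by
  unfold Mu
  have h : π / 2 * Su (-u) = π / 2 - π / 2 * Su u := by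
    have := Su_symm u
    have h2 : Su (-u) = 1 - Su u := by linarith
    rw [h2]; ring
  rw [h, Real.cos_pi_div_two_sub]
  exact Real.cos_sq_add_sin_sq _

lemma Mu_nonneg (u : ℝ) : 0 ≤ Mu u := by
  have h1 := Su_nonneg u
  have h2 := Su_le_one u
  have hp := Real.pi_pos
  apply Real.cos_nonneg_of_neg_pi_div_two_le_of_le
  · have : 0 ≤ π / 2 * Su u := by positivity
    linarith
  · nlinarith

lemma Mu_le_one (u : ℝ) : Mu u ≤ 1 := Real.cos_le_one _

lemma Mu_left {u : ℝ} (h : u ≤ -(3 / 5)) : Mu u = 0 := by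
  unfold Mu; rw [Su_left h, mul_one, Real.cos_pi_div_two]

lemma Mu_right {u : ℝ} (h : 3 / 5 ≤ u) : Mu u = 1 := by
  unfold Mu; rw [Su_right h, mul_zero, Real.cos_zero]

lemma Mu_pos {u : ℝ} (h : -(3 / 5) < u) (h' : u ≠ -(1 / 2)) : 0 < Mu u := by
  have h1 := Su_nonneg u
  have h2 := Su_lt h h'
  have hp := Real.pi_pos
  apply Real.cos_pos_of_mem_Ioo
  constructor
  · have : 0 ≤ π / 2 * Su u := by positivity
    linarith
  · nlinarith

lemma Mu_flat (N : ℕ) : ∃ C : ℝ, 0 ≤ C ∧ ∀ u, Mu u ≤ C * |u + 1 / 2| ^ N := by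
  obtain ⟨C, hC, h⟩ := Su_flat N
  have hp := Real.pi_pos
  refine ⟨π / 2 * C, by positivity, fun u => ?_⟩
  have h1 : Mu u = Real.sin (π / 2 * Su (-u)) := by
    unfold Mu
    have := Su_symm u
    have h2 : Su (-u) = 1 - Su u := by linarith
    rw [h2, mul_sub, mul_one, Real.sin_pi_div_two_sub]
  rw [h1]
  have h2 := Real.sin_le (x := π / 2 * Su (-u)) (by have := Su_nonneg (-u); positivity)
  have h3 := h (-u)
  have h4 : |-u - 1 / 2| = |u + 1 / 2| := by
    rw [← abs_neg]; congr 1; ring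
  rw [h4] at h3
  calc _ ≤ π / 2 * Su (-u) := h2
    _ ≤ π / 2 * (C * |u + 1 / 2| ^ N) := by gcongr
    _ = _ := by ring

/-- the low-pass filter -/
noncomputable def m (y : ℝ) : ℝ := Mu (Real.cos (2 * π * y))

lemma m_smooth : ContDiff ℝ ∞ m := Mu_smooth.comp (Real.contDiff_cos.comp (by fun_prop))

lemma m_add_one (y : ℝ) : m (y + 1) = m y := by
  unfold m
  rw [show 2 * π * (y + 1) = 2 * π * y + 2 * π by ring, Real.cos_add_two_pi]

lemma m_half (y : ℝ) : m (y + 1 / 2) = Mu (- Real.cos (2 * π * y)) := by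
  unfold m
  rw [show 2 * π * (y + 1 / 2) = 2 * π * y + π by ring, Real.cos_add_pi]

lemma m_sq (y : ℝ) : m y ^ 2 + m (y + 1 / 2) ^ 2 = 1 := by
  rw [m_half]; exact Mu_sq _

lemma m_nonneg (y : ℝ) : 0 ≤ m y := Mu_nonneg _
lemma m_le_one (y : ℝ) : m y ≤ 1 := Mu_le_one _

lemma m_one {y : ℝ} (h : |y| ≤ 1 / 8) : m y = 1 := by
  apply Mu_right
  have h1 : Real.cos (2 * π * y) = Real.cos |2 * π * y| := (Real.cos_abs _).symm
  rw [h1]
  have hp := Real.pi_pos
  have h2 : |2 * π * y| ≤ π / 4 := by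
    rw [abs_mul, abs_of_pos (by positivity : (0 : ℝ) < 2 * π)]
    nlinarith
  have h3 := Real.cos_le_cos_of_nonneg_of_le_pi (abs_nonneg _) (by linarith) h2
  rw [Real.cos_pi_div_four] at h3
  have h4 : (6 / 5 : ℝ) ≤ √2 := by
    apply Real.le_sqrt_of_sq_le; norm_num
  linarith

end Pool.Agent.Q83.Mey
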