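import Pool.Agent.Q83.Mey.Schw
import Pool.Agent.Helper152.WavOrth
import Pool.Agent.Helper152.WavCompl
import Pool.Agent.Helper152.WavFour

open Real Set Filter Topology MeasureTheory
open scoped ContDiff ENNReal ComplexConjugate FourierTransform InnerProductSpace

namespace Pool.Agent.Q83.Mey

lemma hf_add_one (y : ℝ) : hf (y + 1) = hf y := by
  unfold hf
  rw [show y + 1 + 1 / 2 = (y + 1 / 2) + 1 by ring, m_add_one]
  congr 1
  rw [Complex.exp_eq_exp_iff_exists_int]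
  exact ⟨-1, by push_cast; ring⟩

lemma hf_smooth : ContDiff ℝ ∞ hf := by
  unfold hf
  have h1 : ContDiff ℝ ∞ fun y : ℝ => (m (y + 1 / 2) : ℂ) :=
    Complex.ofRealCLM.contDiff.comp (m_smooth.comp (by fun_prop))
  have h2 : ContDiff ℝ ∞ fun y : ℝ => Complex.exp (-(2 * π * Complex.I * (y : ℂ))) := by
    have h3 : ContDiff ℝ ∞ fun y : ℝ => (y : ℂ) := Complex.ofRealCLM.contDiff
    exact (contDiff_const.mul h3).neg.cexp
  exact h2.mul h1

lemma hf_temperate : Function.HasTemperateGrowth hf := by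
  refine ⟨hf_smooth, fun n => ?_⟩
  have hper : ∀ y, iteratedDeriv n hf (y + 1) = iteratedDeriv n hf y := by
    intro y
    have h1 := congrFun (iteratedDeriv_comp_add_const n hf 1) y
    have h2 : (fun z => hf (z + 1)) = hf := funext hf_add_one
    rw [h2] at h1
    exact h1.symm
  have hc : Continuous (iteratedDeriv n hf) :=
    hf_smooth.continuous_iteratedDeriv n (by exact_mod_cast le_top)
  obtain ⟨C, -, hC⟩ := per_bdd (f := fun y => ‖iteratedDeriv n hf y‖) hc.norm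
    (fun y => by rw [hper])
  refine ⟨0, C, fun x => ?_⟩
  rw [norm_iteratedFDeriv_eq_norm_iteratedDeriv, pow_zero, mul_one]
  have := hC x
  rwa [abs_of_nonneg (norm_nonneg _)] at this

/-- the scaling function, complex valued -/
noncomputable def gC : SchwartzMap ℝ ℂ where
  toFun := fun y => (g y : ℂ)
  smooth' := Complex.ofRealCLM.contDiff.comp g_smooth
  decay' k n := by
    obtain ⟨C, hC0, hC⟩ := RD_iter n k
    refine ⟨C, fun x => ?_⟩
    have h1 : ‖iteratedFDeriv ℝ n (fun y => (g y : ℂ)) x‖ = ‖iteratedFDeriv ℝ n g x‖ := by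
      have := Complex.ofRealLI.norm_iteratedFDeriv_comp_left (g_smooth.contDiffAt (x := x))
        (i := n) (by exact_mod_cast le_top)
      exact this
    rw [h1, norm_iteratedFDeriv_eq_norm_iteratedDeriv, Real.norm_eq_abs, Real.norm_eq_abs]
    refine le_trans ?_ (hC x)
    gcongr
    linarith [abs_nonneg x]

/-- the Fourier transform of the wavelet is a Schwartz function -/
lemma exists_phS : ∃ f : SchwartzMap ℝ ℂ, ∀ y, f y = ph y := by
  obtain ⟨f, hf'⟩ := Pool.Agent.Helper152.WavFour.exists_schwartz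
    (SchwartzMap.smulLeftCLM ℂ hf gC) (1 / 2) 0 (by norm_num) 1
  refine ⟨f, fun y => ?_⟩
  rw [hf' y, SchwartzMap.smulLeftCLM_apply_apply hf_temperate]
  unfold ph
  rw [one_mul, sub_zero, show (1 / 2 : ℝ) * y = y / 2 by ring]
  rfl

/-- the dilated and translated Fourier transforms -/
noncomputable def FF (j k : ℤ) (ξ : ℝ) : ℂ :=
  ((Real.sqrt ((2:ℝ) ^ (-j)) : ℝ) : ℂ) *
    Complex.exp (-(2 * (Real.pi : ℂ) * Complex.I * (k : ℂ) * ((((2:ℝ) ^ (-j)) * ξ : ℝ) : ℂ))) *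
    ph (((2:ℝ) ^ (-j)) * ξ)

theorem main : ∃ ψ : SchwartzMap ℝ ℂ,
    (∃ b : HilbertBasis (ℤ × ℤ) ℂ (Lp ℂ 2 (volume : Measure ℝ)), ∀ j k : ℤ,
      (b (j, k) : ℝ → ℂ) =ᵐ[volume]
        fun x => (((2 : ℝ) ^ ((j : ℝ) / 2) : ℝ) : ℂ) * ψ ((2 : ℝ) ^ j * x - k)) ∧
    ∀ n : ℕ, ∃ y : ℝ, (n : ℝ) ≤ y ∧ (𝓕 ψ) y ≠ 0 := by
  obtain ⟨P, hP⟩ := exists_phS
  have hFP : 𝓕 (𝓕⁻ P) = P := FourierTransform.fourier_fourierInv_eq P
  refine ⟨𝓕⁻ P, ?_, ?_⟩
  swap
  · intro n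
    obtain ⟨y, hy, hne⟩ := ph_ne n
    refine ⟨y, hy, ?_⟩
    rw [hFP, hP]
    exact hne
  set ψ : SchwartzMap ℝ ℂ := 𝓕⁻ P with hψ
  have hex : ∀ j k : ℤ, ∃ u : SchwartzMap ℝ ℂ, ∀ x, u x
      = (((2 : ℝ) ^ ((j : ℝ) / 2) : ℝ) : ℂ) * ψ ((2 : ℝ) ^ j * x - (k : ℝ)) := fun j k =>
    Pool.Agent.Helper152.WavFour.exists_schwartz ψ ((2 : ℝ) ^ j) k (by positivity) _
  choose u hu using hex
  set v : ℤ × ℤ → Lp ℂ 2 (volume : Measure ℝ) := fun q => (u q.1 q.2).toLp 2 volume with hv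
  have hvae : ∀ j k : ℤ, (v (j, k) : ℝ → ℂ) =ᵐ[volume]
      fun x => (((2 : ℝ) ^ ((j : ℝ) / 2) : ℝ) : ℂ) * ψ ((2 : ℝ) ^ j * x - k) := by
    intro j k
    filter_upwards [(u j k).coeFn_toLp 2 volume] with x hx
    rw [hv]
    simp only
    rw [hx, hu]
  -- Fourier transforms
  have hFv : ∀ j k : ℤ, ((𝓕 (v (j, k)) : Lp ℂ 2 (volume : Measure ℝ)) : ℝ → ℂ) =ᵐ[volume] FF j k := by
    intro j k
    have hc : (0 : ℝ) < (2 : ℝ) ^ j := by positivity
    have hq : Measure.QuasiMeasurePreserving (fun x : ℝ => (2 : ℝ) ^ j * x + -(k : ℝ)) volume volume := by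
      refine ⟨by fun_prop, ?_⟩
      rw [Pool.Agent.Helper152.WavFour.map_aff _ _ hc]
      exact Measure.smul_absolutelyContinuous
    have h1 := Pool.Agent.Helper152.WavFour.fourier_dil (ψ.toLp 2 volume) (v (j, k)) j k (by
      filter_upwards [hvae j k, hq.ae_eq_comp (ψ.coeFn_toLp 2 volume)] with x h1 h2
      simp only [Function.comp_apply] at h2
      rw [h1, sub_eq_add_neg, h2])
    have hc' : (0 : ℝ) < (2 : ℝ) ^ (-j) := by positivity
    have hq' : Measure.QuasiMeasurePreserving (fun x : ℝ => (2 : ℝ) ^ (-j) * x + 0) volume volume := by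
      refine ⟨by fun_prop, ?_⟩
      rw [Pool.Agent.Helper152.WavFour.map_aff _ _ hc']
      exact Measure.smul_absolutelyContinuous
    have h2 : ((𝓕 (ψ.toLp 2 volume) : Lp ℂ 2 (volume : Measure ℝ)) : ℝ → ℂ) =ᵐ[volume] ph := by
      rw [SchwartzMap.toLp_fourier_eq, hFP]
      filter_upwards [P.coeFn_toLp 2 volume] with x hx
      rw [hx, hP]
    filter_upwards [h1, hq'.ae_eq_comp h2] with ξ h3 h4
    simp only [Function.comp_apply, add_zero] at h4
    rw [h3, h4]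
    rfl
  have hmeas : Measurable ph := ph_cont.measurable
  obtain ⟨hFm, hFo⟩ := Pool.Agent.Helper152.WavOrth.orth_of_good ph FF hmeas ph_good
    (fun j k ξ => rfl)
  have hinner : ∀ (f : Lp ℂ 2 (volume : Measure ℝ)) (j k : ℤ),
      ⟪v (j, k), f⟫_ℂ = ∫ ξ, ((𝓕 f : Lp ℂ 2 (volume : Measure ℝ)) : ℝ → ℂ) ξ * conj (FF j k ξ) := by
    intro f j k
    rw [← MeasureTheory.Lp.inner_fourier_eq, L2.inner_def]
    apply integral_congr_ae
    filter_upwards [hFv j k] with ξ hξ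
    rw [hξ]
    rfl
  have horth : Orthonormal ℂ v := by
    rw [orthonormal_iff_ite]
    rintro ⟨j, k⟩ ⟨j', k'⟩
    rw [hinner]
    have h1 : ∫ ξ, ((𝓕 (v (j', k')) : Lp ℂ 2 (volume : Measure ℝ)) : ℝ → ℂ) ξ * conj (FF j k ξ)
        = ∫ ξ, FF j' k' ξ * conj (FF j k ξ) := by
      apply integral_congr_ae
      filter_upwards [hFv j' k'] with ξ hξ
      rw [hξ]
    rw [h1, hFo]
    by_cases h : j = j' ∧ k = k'
    · obtain ⟨rfl, rfl⟩ := h
      simp
    · rw [if_neg (fun h' => h ⟨h'.1.symm, h'.2.symm⟩), if_neg]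
      intro h'
      simp only [Prod.mk.injEq] at h'
      exact h h'
  have hcomp : (Submodule.span ℂ (Set.range v))ᗮ = ⊥ := by
    rw [Submodule.eq_bot_iff]
    intro f hf0
    have h1 : ∀ j k : ℤ, ∫ ξ, ((𝓕 f : Lp ℂ 2 (volume : Measure ℝ)) : ℝ → ℂ) ξ * conj (FF j k ξ) = 0 := by
      intro j k
      rw [← hinner]
      exact (Submodule.mem_orthogonal _ _).1 hf0 _ (Submodule.subset_span ⟨(j, k), rfl⟩)
    have h2 := Pool.Agent.Helper152.WavCompl.complete_of_good ph FF hmeas ph_good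
      (fun j k ξ => rfl) ((𝓕 f : Lp ℂ 2 (volume : Measure ℝ)) : ℝ → ℂ) (Lp.memLp _) h1
    have h3 : (𝓕 f : Lp ℂ 2 (volume : Measure ℝ)) = 0 := by
      apply Lp.ext
      filter_upwards [h2, Lp.coeFn_zero ℂ 2 (volume : Measure ℝ)] with x h4 h5
      rw [h4, h5]
    have h4 : ‖f‖ = 0 := by
      rw [← MeasureTheory.Lp.norm_fourier_eq f, h3, norm_zero]
    exact norm_eq_zero.1 h4
  refine ⟨HilbertBasis.mkOfOrthogonalEqBot horth hcomp, fun j k => ?_⟩
  rw [HilbertBasis.coe_mkOfOrthogonalEqBot]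
  exact hvae j k

end Pool.Agent.Q83.Mey
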