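import Pool.Agent.Q83.Mey.Filter

open Real Set Filter Topology
open scoped ContDiff

namespace Pool.Agent.Q83.Mey

/-- partial products -/
noncomputable def pn (N : ℕ) (y : ℝ) : ℝ := ∏ j ∈ Finset.range N, m (y / 2 ^ (j + 1))

lemma pn_stable {y : ℝ} {N N' : ℕ} (h : |y| ≤ 2 ^ N / 4) (hN : N ≤ N') : pn N' y = pn N y := by
  obtain ⟨k, rfl⟩ := Nat.exists_eq_add_of_le hN
  unfold pn
  rw [Finset.prod_range_add]
  have : ∏ j ∈ Finset.range k, m (y / 2 ^ (N + j + 1)) = 1 := by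
    apply Finset.prod_eq_one
    intro j _
    apply m_one
    rw [abs_div, abs_of_pos (by positivity : (0 : ℝ) < 2 ^ (N + j + 1)), div_le_iff₀ (by positivity)]
    have h1 : (2 : ℝ) ^ (N + 1) ≤ 2 ^ (N + j + 1) := pow_le_pow_right₀ (by norm_num) (by omega)
    rw [pow_succ] at h1
    linarith
  rw [this, mul_one]

/-- the Fourier transform of the scaling function -/
noncomputable def g (y : ℝ) : ℝ := pn ⌈4 * |y|⌉₊ y

lemma lt_two_pow' (n : ℕ) : (n : ℝ) ≤ 2 ^ n := by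
  exact_mod_cast Nat.lt_two_pow_self.le

lemma g_eq {y : ℝ} {N : ℕ} (h : |y| ≤ 2 ^ N / 4) : g y = pn N y := by
  unfold g
  have h1 : |y| ≤ 2 ^ ⌈4 * |y|⌉₊ / 4 := by
    have h2 := Nat.le_ceil (4 * |y|)
    have h3 := lt_two_pow' ⌈4 * |y|⌉₊
    linarith
  rw [← pn_stable h1 (le_max_left _ N), ← pn_stable h (le_max_right ⌈4 * |y|⌉₊ N)]

lemma exists_N (y : ℝ) : ∃ N : ℕ, |y| < 2 ^ N / 4 := by
  obtain ⟨N, hN⟩ := pow_unbounded_of_one_lt (4 * |y|) (by norm_num : (1 : ℝ) < 2)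
  exact ⟨N, by linarith⟩

lemma pn_smooth (N : ℕ) : ContDiff ℝ ∞ (pn N) := by
  unfold pn
  exact contDiff_prod fun j _ => m_smooth.comp (by fun_prop)

lemma g_smooth : ContDiff ℝ ∞ g := by
  rw [contDiff_iff_contDiffAt]
  intro y
  obtain ⟨N, hN⟩ := exists_N y
  refine (pn_smooth N).contDiffAt.congr_of_eventuallyEq ?_
  filter_upwards [(continuous_abs.isOpen_preimage _ (isOpen_Iio (a := (2 : ℝ) ^ N / 4))).mem_nhds hN]
    with z hz
  exact g_eq (le_of_lt hz)

lemma pn_nonneg (N : ℕ) (y : ℝ) : 0 ≤ pn N y := Finset.prod_nonneg fun _ _ => m_nonneg _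
lemma pn_le_one (N : ℕ) (y : ℝ) : pn N y ≤ 1 :=
  Finset.prod_le_one (fun _ _ => m_nonneg _) fun _ _ => m_le_one _
lemma g_nonneg (y : ℝ) : 0 ≤ g y := pn_nonneg _ _
lemma g_le_one (y : ℝ) : g y ≤ 1 := pn_le_one _ _

lemma g_small {y : ℝ} (h : |y| ≤ 1 / 4) : g y = 1 := by
  rw [g_eq (N := 0) (by simpa using h)]
  simp [pn]

lemma pn_succ (N : ℕ) (y : ℝ) : pn (N + 1) (2 * y) = m y * pn N y := by
  unfold pn
  rw [Finset.prod_range_succ', mul_comm]
  congr 1
  · congr 1; ring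
  · refine Finset.prod_congr rfl fun j _ => ?_
    congr 1
    rw [pow_succ (2 : ℝ) (j + 1)]
    field_simp

lemma g_two (y : ℝ) : g (2 * y) = m y * g y := by
  obtain ⟨N, hN⟩ := exists_N y
  rw [g_eq hN.le, g_eq (N := N + 1), pn_succ]
  rw [abs_mul, abs_two, pow_succ]
  linarith

lemma g_split (N : ℕ) (y : ℝ) : g y = pn N y * g (y / 2 ^ N) := by
  induction N generalizing y with
  | zero => simp [pn]
  | succ N ih =>
    have h1 : y = 2 * (y / 2) := by ring
    conv_lhs => rw [h1, g_two, ih]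
    have h2 := pn_succ N (y / 2)
    rw [← h1] at h2
    rw [h2]
    have h3 : y / 2 / 2 ^ N = y / 2 ^ (N + 1) := by rw [pow_succ, div_div, mul_comm]
    rw [h3]
    ring

/-- cosines at the dyadic scales -/
noncomputable def uu (y : ℝ) (j : ℕ) : ℝ := Real.cos (2 * π * (y / 2 ^ j))

lemma uu_succ (y : ℝ) (j : ℕ) : uu y j = 2 * uu y (j + 1) ^ 2 - 1 := by
  unfold uu
  rw [← Real.cos_two_mul]
  congr 1
  rw [pow_succ]
  field_simp

lemma expand {u : ℝ} (h0 : u ≤ 0) (h1 : Mu u ≠ 0) (h2 : Mu (2 * u ^ 2 - 1) ≠ 0) :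
    2 * u ^ 2 - 1 ≤ 0 ∧ 3 / 2 * |u + 1 / 2| ≤ |2 * u ^ 2 - 1 + 1 / 2| := by
  have h3 : -(3 / 5) < u := by
    by_contra h; exact h1 (Mu_left (not_lt.1 h))
  have h4 : -(3 / 5) < 2 * u ^ 2 - 1 := by
    by_contra h; exact h2 (Mu_left (not_lt.1 h))
  have h5 : u ≤ -(1 / 4) := by
    by_contra h
    push Not at h
    have : u ^ 2 ≤ (1 / 4) ^ 2 := by
      apply sq_le_sq'
      · linarith
      · linarith
    norm_num at this
    linarith
  refine ⟨by nlinarith, ?_⟩
  have h6 : (2 : ℝ) * u ^ 2 - 1 + 1 / 2 = (2 * (u - 1 / 2)) * (u + 1 / 2) := by ring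
  rw [h6, abs_mul]
  apply mul_le_mul_of_nonneg_right _ (abs_nonneg _)
  rw [abs_of_neg (by linarith)]
  linarith

lemma chain {y : ℝ} {n : ℕ} (hn : uu y n ≤ 0) (hne : ∀ j, 1 ≤ j → j ≤ n → Mu (uu y j) ≠ 0) :
    ∀ i : ℕ, i + 1 ≤ n → uu y (n - i) ≤ 0 ∧
      (3 / 2 : ℝ) ^ i * |uu y n + 1 / 2| ≤ |uu y (n - i) + 1 / 2| := by
  intro i
  induction i with
  | zero => intro _; simp [hn]
  | succ i ih =>
    intro hi
    obtain ⟨h1, h2⟩ := ih (by omega)
    have h3 : n - i = (n - (i + 1)) + 1 := by omega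
    have h4 := uu_succ y (n - (i + 1))
    rw [← h3] at h4
    have h5 := expand h1 (hne _ (by omega) (by omega)) (by
      rw [← h4]; exact hne _ (by omega) (by omega))
    rw [← h4] at h5
    refine ⟨h5.1, ?_⟩
    rw [pow_succ]
    calc (3 / 2 : ℝ) ^ i * (3 / 2) * |uu y n + 1 / 2|
        = 3 / 2 * ((3 / 2 : ℝ) ^ i * |uu y n + 1 / 2|) := by ring
      _ ≤ 3 / 2 * |uu y (n - i) + 1 / 2| := by gcongr
      _ ≤ _ := h5.2

lemma scale {y : ℝ} (h : 1 / 2 < |y|) : ∃ n : ℕ, 1 ≤ n ∧ 2 ^ n / 4 < |y| ∧ |y| ≤ 2 ^ n / 2 := by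
  classical
  have hex : ∃ n : ℕ, |y| ≤ 2 ^ n / 2 := by
    obtain ⟨N, hN⟩ := exists_N y
    exact ⟨N, by have : (0 : ℝ) < 2 ^ N := by positivity
                 linarith⟩
  refine ⟨Nat.find hex, ?_, ?_, Nat.find_spec hex⟩
  · rw [Nat.one_le_iff_ne_zero]
    intro h0
    have := Nat.find_spec hex
    rw [h0] at this
    norm_num at this
    linarith
  · have h1 : Nat.find hex ≠ 0 := by
      intro h0
      have := Nat.find_spec hex
      rw [h0] at this
      norm_num at this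
      linarith
    obtain ⟨k, hk⟩ := Nat.exists_eq_succ_of_ne_zero h1
    have h2 := Nat.find_min hex (m := k) (by omega)
    rw [hk]
    rw [Nat.succ_eq_add_one, pow_succ]
    push Not at h2
    linarith

/-- rapid decay of the scaling function -/
lemma g_decay (K : ℕ) : ∃ C : ℝ, 0 ≤ C ∧ ∀ y, |y| ^ K * g y ≤ C := by
  obtain ⟨C, hC, hM⟩ := Mu_flat (2 * K)
  refine ⟨max 1 (C * (81 / 16) ^ K), by positivity, fun y => ?_⟩
  rcases le_or_gt |y| (1 / 2) with h | h
  · refine le_trans ?_ (le_max_left _ _)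
    calc |y| ^ K * g y ≤ 1 * 1 := by
          apply mul_le_mul _ (g_le_one y) (g_nonneg y) zero_le_one
          exact pow_le_one₀ (abs_nonneg y) (by linarith)
      _ = 1 := by ring
  · obtain ⟨n, hn1, hn2, hn3⟩ := scale h
    by_cases hz : g y = 0
    · rw [hz, mul_zero]; positivity
    refine le_trans ?_ (le_max_right _ _)
    -- all factors are nonzero
    have hg : g y = pn (n + 1) y := g_eq (by rw [pow_succ]; linarith)
    have hne : ∀ j, 1 ≤ j → j ≤ n → Mu (uu y j) ≠ 0 := by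
      intro j hj1 hj2 h0
      apply hz
      rw [hg]
      unfold pn
      apply Finset.prod_eq_zero (i := j - 1) (Finset.mem_range.2 (by omega))
      rw [show j - 1 + 1 = j by omega]
      exact h0
    have hp := Real.pi_pos
    have hun : uu y n ≤ 0 := by
      unfold uu
      rw [← Real.cos_abs]
      have e : |2 * π * (y / 2 ^ n)| = 2 * π * (|y| / 2 ^ n) := by
        rw [abs_mul, abs_of_pos (by positivity : (0 : ℝ) < 2 * π), abs_div,
          abs_of_pos (by positivity : (0 : ℝ) < 2 ^ n)]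
      rw [e]
      have h2n : (0 : ℝ) < 2 ^ n := by positivity
      have h3 : 1 / 4 ≤ |y| / 2 ^ n := by rw [le_div_iff₀ h2n]; linarith
      have h4 : |y| / 2 ^ n ≤ 1 / 2 := by rw [div_le_iff₀ h2n]; linarith
      apply Real.cos_nonpos_of_pi_div_two_le_of_le
      · nlinarith
      · nlinarith
    obtain ⟨-, h5⟩ := chain hun hne (n - 1) (by omega)
    rw [show n - (n - 1) = 1 by omega] at h5
    have h6 : |uu y 1 + 1 / 2| ≤ 3 / 2 := by
      rw [abs_le]
      unfold uu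
      have a1 := Real.neg_one_le_cos (2 * π * (y / 2 ^ 1))
      have a2 := Real.cos_le_one (2 * π * (y / 2 ^ 1))
      constructor <;> linarith
    set d := |uu y n + 1 / 2| with hd
    have hd0 : 0 ≤ d := abs_nonneg _
    have h7 : (3 / 2 : ℝ) ^ n * d ≤ 9 / 4 := by
      obtain ⟨k, rfl⟩ := Nat.exists_eq_add_of_le hn1
      rw [show 1 + k - 1 = k by omega] at h5
      rw [pow_add, pow_one]
      nlinarith
    have h8 : g y ≤ C * d ^ (2 * K) := by
      have h9 : g y ≤ Mu (uu y n) := by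
        rw [hg]
        unfold pn
        have hmem : n - 1 ∈ Finset.range (n + 1) := Finset.mem_range.2 (by omega)
        rw [← Finset.mul_prod_erase _ _ hmem, show n - 1 + 1 = n by omega]
        have h10 : ∏ x ∈ (Finset.range (n + 1)).erase (n - 1), m (y / 2 ^ (x + 1)) ≤ 1 :=
          Finset.prod_le_one (fun _ _ => m_nonneg _) fun _ _ => m_le_one _
        calc m (y / 2 ^ n) * _ ≤ m (y / 2 ^ n) * 1 :=
              mul_le_mul_of_nonneg_left h10 (m_nonneg _)
          _ = Mu (uu y n) := by rw [mul_one]; rfl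
      exact h9.trans (hM _)
    have h11 : |y| ^ K ≤ ((3 / 2 : ℝ) ^ n) ^ (2 * K) := by
      rw [pow_mul]
      apply pow_le_pow_left₀ (abs_nonneg _)
      have h12 : ((3 / 2 : ℝ) ^ n) ^ 2 = (9 / 4) ^ n := by rw [← pow_mul, mul_comm, pow_mul]; norm_num
      rw [h12]
      have h13 : (2 : ℝ) ^ n ≤ (9 / 4) ^ n := pow_le_pow_left₀ (by norm_num) (by norm_num) n
      have : (0 : ℝ) < 2 ^ n := by positivity
      linarith
    calc |y| ^ K * g y ≤ ((3 / 2 : ℝ) ^ n) ^ (2 * K) * (C * d ^ (2 * K)) :=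
          mul_le_mul h11 h8 (g_nonneg y) (by positivity)
      _ = C * ((3 / 2 : ℝ) ^ n * d) ^ (2 * K) := by rw [mul_pow]; ring
      _ ≤ C * (9 / 4) ^ (2 * K) := by gcongr
      _ = C * (81 / 16) ^ K := by rw [pow_mul]; norm_num

lemma m_pos_small {y : ℝ} (h : |y| ≤ 1 / 4) : 0 < m y := by
  apply Mu_pos
  · have : 0 ≤ Real.cos (2 * π * y) := by
      have hp := Real.pi_pos
      rw [abs_le] at h
      apply Real.cos_nonneg_of_neg_pi_div_two_le_of_le <;> nlinarith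
    linarith
  · have : 0 ≤ Real.cos (2 * π * y) := by
      have hp := Real.pi_pos
      rw [abs_le] at h
      apply Real.cos_nonneg_of_neg_pi_div_two_le_of_le <;> nlinarith
    intro h2
    rw [h2] at this
    linarith

/-- lower bound near the origin -/
lemma g_lower : ∃ c : ℝ, 0 < c ∧ ∀ y, |y| ≤ 1 / 2 → c ≤ g y := by
  obtain ⟨x, hx, hmin⟩ := (isCompact_Icc (a := (-(1 / 4) : ℝ)) (b := 1 / 4)).exists_isMinOn
    ⟨0, by norm_num⟩ (m_smooth.continuous.continuousOn)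
  refine ⟨m x, m_pos_small (abs_le.2 ⟨by linarith [hx.1], hx.2⟩), fun y hy => ?_⟩
  rw [g_eq (N := 1) (by norm_num; linarith)]
  unfold pn
  rw [Finset.prod_range_one, zero_add, pow_one]
  apply hmin
  rw [abs_le] at hy
  constructor <;> linarith

end Pool.Agent.Q83.Mey
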