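import Pool.Agent.Q83.Mey.Sum

open Real Set Filter Topology
open scoped ContDiff ENNReal ComplexConjugate

namespace Pool.Agent.Q83.Mey

lemma per_bdd {f : ℝ → ℝ} (hc : Continuous f) (hp : ∀ y, f (y + 1) = f y) :
    ∃ C : ℝ, 0 ≤ C ∧ ∀ y, |f y| ≤ C := by
  obtain ⟨C, hC⟩ := (isCompact_Icc (a := (0 : ℝ)) (b := 1)).exists_bound_of_continuousOn
    hc.continuousOn
  have hper : Function.Periodic f 1 := hp
  refine ⟨C, (norm_nonneg _).trans (hC 0 (by norm_num)), fun y => ?_⟩
  have h1 : f y = f (Int.fract y) := by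
    have := hper.int_mul ⌊y⌋ (Int.fract y)
    rw [mul_one, Int.fract_add_floor] at this
    exact this
  rw [h1]
  exact hC _ ⟨Int.fract_nonneg y, (Int.fract_lt_one y).le⟩

lemma m_deriv_bdd (k : ℕ) : ∃ C : ℝ, 0 ≤ C ∧ ∀ y, |iteratedDeriv k m y| ≤ C := by
  apply per_bdd
  · exact m_smooth.continuous_iteratedDeriv k (by exact_mod_cast le_top)
  · intro y
    have h1 := congrFun (iteratedDeriv_comp_add_const k m 1) y
    have h2 : (fun z => m (z + 1)) = m := funext m_add_one
    rw [h2] at h1
    exact h1.symm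

/-- all derivatives of the scaling function are bounded -/
lemma g_deriv_bdd (k : ℕ) : ∃ C : ℝ, 0 ≤ C ∧ ∀ y, |iteratedDeriv k g y| ≤ C := by
  induction k using Nat.strong_induction_on with
  | _ k ih =>
    rcases Nat.eq_zero_or_pos k with rfl | hk
    · refine ⟨1, zero_le_one, fun y => ?_⟩
      rw [iteratedDeriv_zero, abs_of_nonneg (g_nonneg y)]
      exact g_le_one y
    choose! Cg hCg0 hCg using ih
    choose Cm hCm0 hCm using m_deriv_bdd
    obtain ⟨D, hD⟩ := (isCompact_Icc (a := (-1 : ℝ)) (b := 1)).exists_bound_of_continuousOn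
      (g_smooth.continuous_iteratedDeriv k (by exact_mod_cast le_top)).continuousOn
    set K : ℝ := ∑ i ∈ Finset.range k, (k.choose (i + 1) : ℝ) * Cm (i + 1) * Cg (k - (i + 1)) with hK
    have hK0 : 0 ≤ K := Finset.sum_nonneg fun i hi => by
      have h1 := hCm0 (i + 1)
      have h2 := hCg0 (k - (i + 1)) (by omega)
      positivity
    -- the recursion
    have hrec : ∀ y, |iteratedDeriv k g y| ≤ 1 / 2 * |iteratedDeriv k g (1 / 2 * y)| + K := by
      intro y
      have hg : g = fun y => (fun y => m (1 / 2 * y)) y * (fun y => g (1 / 2 * y)) y := by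
        funext y
        have := g_two (1 / 2 * y)
        rw [show 2 * (1 / 2 * y) = y by ring] at this
        exact this
      have hm1 : ContDiff ℝ ∞ fun y : ℝ => m (1 / 2 * y) := m_smooth.comp (by fun_prop)
      have hg1 : ContDiff ℝ ∞ fun y : ℝ => g (1 / 2 * y) := g_smooth.comp (by fun_prop)
      have h1 : iteratedDeriv k g y = ∑ i ∈ Finset.range (k + 1),
          (k.choose i : ℝ) * iteratedDeriv i (fun y => m (1 / 2 * y)) y *
            iteratedDeriv (k - i) (fun y => g (1 / 2 * y)) y := by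
        conv_lhs => rw [hg]
        exact iteratedDeriv_fun_mul (hm1.contDiffAt.of_le (by exact_mod_cast le_top))
          (hg1.contDiffAt.of_le (by exact_mod_cast le_top))
      have e1 : ∀ i, iteratedDeriv i (fun y => m (1 / 2 * y)) y
          = (1 / 2) ^ i * iteratedDeriv i m (1 / 2 * y) := fun i =>
        congrFun (iteratedDeriv_comp_const_mul (m_smooth.of_le (by exact_mod_cast le_top)) (1 / 2)) y
      have e2 : ∀ i, iteratedDeriv i (fun y => g (1 / 2 * y)) y
          = (1 / 2) ^ i * iteratedDeriv i g (1 / 2 * y) := fun i =>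
        congrFun (iteratedDeriv_comp_const_mul (g_smooth.of_le (by exact_mod_cast le_top)) (1 / 2)) y
      rw [h1, Finset.sum_range_succ']
      simp only [e1, e2, Nat.choose_zero_right, Nat.cast_one, one_mul, pow_zero, iteratedDeriv_zero,
        Nat.sub_zero]
      have hpk : (1 / 2 : ℝ) ^ k ≤ 1 / 2 := by
        calc (1 / 2 : ℝ) ^ k ≤ (1 / 2) ^ 1 := pow_le_pow_of_le_one (by norm_num) (by norm_num) hk
          _ = 1 / 2 := by norm_num
      refine (abs_add_le _ _).trans ?_
      rw [add_comm]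
      apply add_le_add
      · rw [abs_mul, abs_mul, abs_of_nonneg (m_nonneg _), abs_of_nonneg (by positivity)]
        have := m_le_one (1 / 2 * y)
        have h3 := m_nonneg (1 / 2 * y)
        have h4 := abs_nonneg (iteratedDeriv k g (1 / 2 * y))
        calc m (1 / 2 * y) * ((1 / 2) ^ k * |iteratedDeriv k g (1 / 2 * y)|)
            ≤ 1 * ((1 / 2) * |iteratedDeriv k g (1 / 2 * y)|) := by gcongr
          _ = _ := by ring
      · refine (Finset.abs_sum_le_sum_abs _ _).trans (Finset.sum_le_sum fun i hi => ?_)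
        rw [Finset.mem_range] at hi
        rw [abs_mul, abs_mul, abs_mul, abs_mul, Nat.abs_cast, abs_of_nonneg (by positivity : (0 : ℝ) ≤ (1 / 2) ^ (i + 1)),
          abs_of_nonneg (by positivity : (0 : ℝ) ≤ (1 / 2) ^ (k - (i + 1)))]
        have a1 := hCm (i + 1) (1 / 2 * y)
        have a2 := hCg (k - (i + 1)) (by omega) (1 / 2 * y)
        have a3 : (1 / 2 : ℝ) ^ (i + 1) ≤ 1 := pow_le_one₀ (by norm_num) (by norm_num)
        have a4 : (1 / 2 : ℝ) ^ (k - (i + 1)) ≤ 1 := pow_le_one₀ (by norm_num) (by norm_num)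
        have a5 := hCm0 (i + 1)
        have a6 := hCg0 (k - (i + 1)) (by omega)
        calc (k.choose (i + 1) : ℝ) * ((1 / 2) ^ (i + 1) * |iteratedDeriv (i + 1) m (1 / 2 * y)|)
              * ((1 / 2) ^ (k - (i + 1)) * |iteratedDeriv (k - (i + 1)) g (1 / 2 * y)|)
            ≤ (k.choose (i + 1) : ℝ) * (1 * Cm (i + 1)) * (1 * Cg (k - (i + 1))) := by gcongr
          _ = _ := by ring
    refine ⟨max D (2 * K), by positivity, ?_⟩
    have hdy : ∀ N : ℕ, ∀ y, |y| ≤ 2 ^ N → |iteratedDeriv k g y| ≤ max D (2 * K) := by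
      intro N
      induction N with
      | zero =>
        intro y hy
        rw [pow_zero, abs_le] at hy
        exact (hD y hy).trans (le_max_left _ _)
      | succ N ihN =>
        intro y hy
        have h1 := hrec y
        have h2 := ihN (1 / 2 * y) (by
          rw [abs_mul, abs_of_pos (by norm_num : (0 : ℝ) < 1 / 2)]
          rw [pow_succ] at hy
          linarith)
        have h3 := le_max_right D (2 * K)
        linarith
    intro y
    obtain ⟨N, hN⟩ := exists_N y
    exact hdy N y (by have : (0 : ℝ) < 2 ^ N := by positivity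
                      linarith)

/-- rapid decay -/
def RD (f : ℝ → ℝ) : Prop := ∀ N : ℕ, ∃ C : ℝ, 0 ≤ C ∧ ∀ y, (1 + |y|) ^ N * |f y| ≤ C

lemma RD_g : RD g := by
  intro N
  obtain ⟨C1, h1, h1'⟩ := g_decay 0
  obtain ⟨C2, h2, h2'⟩ := g_decay N
  refine ⟨2 ^ N * (C1 + C2), by positivity, fun y => ?_⟩
  have a1 := h1' y
  have a2 := h2' y
  rw [pow_zero, one_mul] at a1
  rw [abs_of_nonneg (g_nonneg y)]
  have hg := g_nonneg y
  have h3 : (1 + |y|) ^ N ≤ 2 ^ N * (1 + |y| ^ N) := by
    have h4 : 1 + |y| ≤ 2 * max 1 |y| := by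
      have := le_max_left 1 |y|
      have := le_max_right 1 |y|
      linarith
    have h5 : (max 1 |y|) ^ N ≤ 1 + |y| ^ N := by
      rcases le_total 1 |y| with h | h
      · rw [max_eq_right h]; linarith
      · rw [max_eq_left h, one_pow]; have : 0 ≤ |y| ^ N := by positivity
        linarith
    calc (1 + |y|) ^ N ≤ (2 * max 1 |y|) ^ N := pow_le_pow_left₀ (by positivity) h4 N
      _ = 2 ^ N * (max 1 |y|) ^ N := mul_pow _ _ _
      _ ≤ _ := by gcongr
  calc (1 + |y|) ^ N * g y ≤ (2 ^ N * (1 + |y| ^ N)) * g y := by gcongr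
    _ = 2 ^ N * (g y + |y| ^ N * g y) := by ring
    _ ≤ _ := by gcongr

/-- interpolation: rapid decay passes to derivatives -/
lemma RD_deriv {f : ℝ → ℝ} (hf : ContDiff ℝ 2 f) (h0 : RD f) {A : ℝ} (hA : 0 ≤ A)
    (h2 : ∀ y, |deriv (deriv f) y| ≤ A) : RD (deriv f) := by
  intro N
  obtain ⟨C, hC0, hC⟩ := h0 (2 * N)
  refine ⟨2 ^ (2 * N) * C + C + A, by positivity, fun y => ?_⟩
  have hd1 : Differentiable ℝ f := hf.differentiable (by norm_num)
  have hf' : ContDiff ℝ 1 (deriv f) := by
    have h3 : ContDiff ℝ (1 + 1) f := by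
      have e : (1 + 1 : WithTop ℕ∞) = 2 := by norm_num
      rw [e]; exact hf
    exact (contDiff_succ_iff_deriv.1 h3).2.2
  have hd2 : Differentiable ℝ (deriv f) := hf'.differentiable (by norm_num)
  set w : ℝ := 1 + |y| with hw
  have hw1 : 1 ≤ w := by rw [hw]; have := abs_nonneg y; linarith
  have hwpos : 0 < w := by linarith
  set h : ℝ := (w ^ N)⁻¹ with hh
  have hhpos : 0 < h := by positivity
  have hh1 : h ≤ 1 := inv_le_one_of_one_le₀ (one_le_pow₀ hw1)
  -- first order Taylor estimate
  have hlip : ∀ s, |deriv f s - deriv f y| ≤ A * |s - y| := by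
    intro s
    have := Convex.norm_image_sub_le_of_norm_deriv_le (f := deriv f) (C := A) (s := univ)
      (fun x _ => hd2 x) (fun x _ => h2 x) convex_univ (mem_univ y) (mem_univ s)
    exact this
  have htay : |f (y + h) - f y - h * deriv f y| ≤ A * h * h := by
    have hder : ∀ t ∈ Icc (0 : ℝ) h, HasDerivWithinAt (fun t => f (y + t) - f y - t * deriv f y)
        (deriv f (y + t) - deriv f y) (Icc 0 h) t := by
      intro t _
      have e1 : HasDerivAt (fun t => f (y + t)) (deriv f (y + t)) t := by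
        exact (hd1 (y + t)).hasDerivAt.comp_const_add y t
      have e2 := (e1.sub_const (f y)).sub ((hasDerivAt_id t).mul_const (deriv f y))
      simp only [id, one_mul] at e2
      exact e2.hasDerivWithinAt
    have := Convex.norm_image_sub_le_of_norm_hasDerivWithin_le (C := A * h)
      (f := fun t => f (y + t) - f y - t * deriv f y) hder (fun t ht => by
        have e3 := hlip (y + t)
        rw [show y + t - y = t by ring, abs_of_nonneg ht.1] at e3
        exact e3.trans (by gcongr; exact ht.2)) (convex_Icc 0 h)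
      (left_mem_Icc.2 hhpos.le) (right_mem_Icc.2 hhpos.le)
    simp only [Real.norm_eq_abs, add_zero, sub_zero, zero_mul, sub_self] at this
    rw [abs_of_pos hhpos] at this
    exact this
  have b1 := hC y
  have b2 := hC (y + h)
  have hw2 : w ^ (2 * N) = (w ^ N) * (w ^ N) := by rw [← pow_add]; congr 1; ring
  have b3 : w ^ (2 * N) * |f (y + h)| ≤ 2 ^ (2 * N) * C := by
    have h3 : w ≤ 2 * (1 + |y + h|) := by
      have : |y| ≤ |y + h| + h := by
        calc |y| = |(y + h) - h| := by ring_nf
          _ ≤ |y + h| + |h| := abs_sub _ _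
          _ = _ := by rw [abs_of_pos hhpos]
      have := abs_nonneg (y + h)
      rw [hw]; linarith
    calc w ^ (2 * N) * |f (y + h)| ≤ (2 * (1 + |y + h|)) ^ (2 * N) * |f (y + h)| := by gcongr
      _ = 2 ^ (2 * N) * ((1 + |y + h|) ^ (2 * N) * |f (y + h)|) := by rw [mul_pow]; ring
      _ ≤ _ := by gcongr
  have hWN : 0 < w ^ N := by positivity
  have hhW : w ^ N * h = 1 := mul_inv_cancel₀ hWN.ne'
  have b4 : |h * deriv f y| ≤ |f (y + h)| + |f y| + A * h * h := by
    have e : h * deriv f y = (f (y + h) - f y) - (f (y + h) - f y - h * deriv f y) := by ring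
    rw [e]
    calc _ ≤ |f (y + h) - f y| + |f (y + h) - f y - h * deriv f y| := abs_sub _ _
      _ ≤ (|f (y + h)| + |f y|) + A * h * h := add_le_add (abs_sub _ _) htay
  rw [abs_mul, abs_of_pos hhpos] at b4
  -- multiply by `w ^ (2 N)`
  calc w ^ N * |deriv f y| = w ^ (2 * N) * (h * |deriv f y|) := by
        rw [hw2]
        calc w ^ N * |deriv f y| = w ^ N * (w ^ N * h) * |deriv f y| := by rw [hhW, mul_one]
          _ = _ := by ring
    _ ≤ w ^ (2 * N) * (|f (y + h)| + |f y| + A * h * h) := by gcongr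
    _ = w ^ (2 * N) * |f (y + h)| + w ^ (2 * N) * |f y| + A * ((w ^ N * h) * (w ^ N * h)) := by
        rw [hw2]; ring
    _ ≤ 2 ^ (2 * N) * C + C + A := by rw [hhW]; linarith

lemma RD_iter (k : ℕ) : RD (iteratedDeriv k g) := by
  induction k with
  | zero => rw [iteratedDeriv_zero]; exact RD_g
  | succ k ih =>
    rw [iteratedDeriv_succ]
    obtain ⟨A, hA0, hA⟩ := g_deriv_bdd (k + 2)
    refine RD_deriv ?_ ih hA0 (fun y => ?_)
    · have h1 := contDiff_infty.1 g_smooth (2 + k)
      rw [iteratedDeriv_eq_iterate]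
      exact ContDiff.iterate_deriv' 2 k (by exact_mod_cast h1)
    · have := hA y
      rwa [iteratedDeriv_succ, iteratedDeriv_succ] at this

/-- the scaling function as a Schwartz function -/
noncomputable def gS : SchwartzMap ℝ ℝ where
  toFun := g
  smooth' := g_smooth
  decay' k n := by
    obtain ⟨C, hC0, hC⟩ := RD_iter n k
    refine ⟨C, fun x => ?_⟩
    rw [norm_iteratedFDeriv_eq_norm_iteratedDeriv, Real.norm_eq_abs, Real.norm_eq_abs]
    refine le_trans ?_ (hC x)
    gcongr
    linarith [abs_nonneg x]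

end Pool.Agent.Q83.Mey
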