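import Pool.Agent.Q83.Mey.Scal
import Pool.Agent.Helper152.WavFilt

open Real Set Filter Topology
open scoped ContDiff ENNReal ComplexConjugate

namespace Pool.Agent.Q83.Mey

open Classical in
/-- truncated products -/
noncomputable def gt (N : ℕ) (y : ℝ) : ℝ :=
  if y ∈ Ico (-(2 ^ N / 2) : ℝ) (2 ^ N / 2) then pn N y else 0

lemma gt_succ (N : ℕ) (y : ℝ) : gt (N + 1) y = m (y / 2) * gt N (y / 2) := by
  unfold gt
  have h1 : y ∈ Ico (-(2 ^ (N + 1) / 2) : ℝ) (2 ^ (N + 1) / 2) ↔
      y / 2 ∈ Ico (-(2 ^ N / 2) : ℝ) (2 ^ N / 2) := by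
    simp only [mem_Ico, pow_succ]
    constructor
    · rintro ⟨h1, h2⟩
      constructor <;> linarith
    · rintro ⟨h1, h2⟩
      constructor <;> linarith
  by_cases h : y / 2 ∈ Ico (-(2 ^ N / 2) : ℝ) (2 ^ N / 2)
  · rw [if_pos (h1.2 h), if_pos h]
    have := pn_succ N (y / 2)
    rwa [show 2 * (y / 2) = y by ring] at this
  · rw [if_neg (fun h' => h (h1.1 h')), if_neg h, mul_zero]

lemma gt_hasSum (N : ℕ) : ∀ y : ℝ, HasSum (fun k : ℤ => gt N (y + k) ^ 2) 1 := by
  induction N with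
  | zero =>
    intro y
    have h1 : ∀ k : ℤ, gt 0 (y + k) ^ 2 = if k = -⌊y + 1 / 2⌋ then 1 else 0 := by
      intro k
      unfold gt
      have h2 : (y + k ∈ Ico (-(2 ^ 0 / 2) : ℝ) (2 ^ 0 / 2)) ↔ k = -⌊y + 1 / 2⌋ := by
        rw [mem_Ico, eq_neg_iff_add_eq_zero, add_comm k, ← Int.floor_add_intCast, Int.floor_eq_zero_iff,
          mem_Ico]
        norm_num
        constructor
        · rintro ⟨h1, h2⟩
          constructor <;> linarith
        · rintro ⟨h1, h2⟩
          constructor <;> linarith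
      by_cases h : k = -⌊y + 1 / 2⌋
      · rw [if_pos (h2.2 h), if_pos h]
        simp [pn]
      · rw [if_neg (fun h' => h (h2.1 h')), if_neg h]
        norm_num
    simp only [h1]
    exact hasSum_ite_eq _ _
  | succ N ih =>
    intro y
    have hs := Pool.Agent.Helper152.WavFilt.hasSum_parity
      (f := fun k : ℤ => gt (N + 1) (y + k) ^ 2) (a := m (y / 2) ^ 2 * 1)
      (b := m (y / 2 + 1 / 2) ^ 2 * 1) ?_ ?_
    · have := m_sq (y / 2)
      rwa [mul_one, mul_one, this] at hs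
    · have h1 : ∀ k : ℤ, gt (N + 1) (y + ((2 * k : ℤ) : ℝ)) ^ 2 = m (y / 2) ^ 2 * gt N (y / 2 + k) ^ 2 := by
        intro k
        rw [gt_succ]
        have e : (y + ((2 * k : ℤ) : ℝ)) / 2 = y / 2 + k := by push_cast; ring
        rw [e, mul_pow]
        congr 2
        have hper : Function.Periodic m 1 := m_add_one
        have := hper.int_mul k (y / 2)
        simpa using this
      simp only [h1]
      exact (ih (y / 2)).mul_left _
    · have h1 : ∀ k : ℤ, gt (N + 1) (y + ((2 * k + 1 : ℤ) : ℝ)) ^ 2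
          = m (y / 2 + 1 / 2) ^ 2 * gt N (y / 2 + 1 / 2 + k) ^ 2 := by
        intro k
        rw [gt_succ]
        have e : (y + ((2 * k + 1 : ℤ) : ℝ)) / 2 = y / 2 + 1 / 2 + k := by push_cast; ring
        rw [e, mul_pow]
        congr 2
        have hper : Function.Periodic m 1 := m_add_one
        have := hper.int_mul k (y / 2 + 1 / 2)
        simpa using this
      simp only [h1]
      exact (ih (y / 2 + 1 / 2)).mul_left _

lemma g_sq_summable (y : ℝ) : Summable fun k : ℤ => g (y + k) ^ 2 := by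
  obtain ⟨C, hC, h⟩ := g_decay 2
  have h2 : Summable fun k : ℤ => C * (1 / |(k : ℝ) + y| ^ (2 : ℝ)) :=
    ((Real.summable_one_div_int_add_rpow y 2).2 (by norm_num)).mul_left C
  refine Summable.of_norm_bounded_eventually h2 ?_
  rw [Filter.eventually_cofinite]
  refine ((finite_singleton (-⌊y⌋)).subset ?_)
  intro k hk
  rw [mem_singleton_iff]
  by_contra hne
  apply hk
  have hpos : (k : ℝ) + y ≠ 0 := by
    intro h0
    apply hne
    have : y = ((-k : ℤ) : ℝ) := by push_cast; linarith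
    rw [this, Int.floor_intCast]; ring
  have hpos' : 0 < |(k : ℝ) + y| ^ 2 := by positivity
  have h3 := h (y + k)
  rw [add_comm y] at h3
  rw [Real.norm_of_nonneg (sq_nonneg _), add_comm y]
  have h4 := g_nonneg ((k : ℝ) + y)
  have h5 := g_le_one ((k : ℝ) + y)
  rw [Real.rpow_two, mul_one_div, le_div_iff₀ hpos']
  nlinarith

lemma g_sum (y : ℝ) : HasSum (fun k : ℤ => g (y + k) ^ 2) 1 := by
  obtain ⟨c, hc, hlow⟩ := g_lower
  have hsum := g_sq_summable y
  have hlim : Tendsto (fun N : ℕ => ∑' k : ℤ, gt N (y + k) ^ 2) atTop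
      (𝓝 (∑' k : ℤ, g (y + k) ^ 2)) := by
    refine tendsto_tsum_of_dominated_convergence (bound := fun k : ℤ => (c⁻¹) ^ 2 * g (y + k) ^ 2)
      (hsum.mul_left _) ?_ ?_
    · intro k
      obtain ⟨N0, hN0⟩ := exists_N (y + k)
      refine tendsto_const_nhds.congr' ?_
      filter_upwards [eventually_ge_atTop N0] with N hN
      have h1 : |y + k| ≤ 2 ^ N / 4 := by
        have : (2 : ℝ) ^ N0 ≤ 2 ^ N := pow_le_pow_right₀ (by norm_num) hN
        linarith
      have h2 : (0 : ℝ) < 2 ^ N := by positivity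
      unfold gt
      rw [if_pos, g_eq h1]
      rw [abs_le] at h1
      constructor <;> linarith
    · refine Eventually.of_forall fun N k => ?_
      rw [Real.norm_of_nonneg (sq_nonneg _)]
      unfold gt
      split_ifs with h
      · have h2 : (0 : ℝ) < 2 ^ N := by positivity
        have h3 : |(y + k) / 2 ^ N| ≤ 1 / 2 := by
          rw [abs_div, abs_of_pos h2, div_le_iff₀ h2, abs_le]
          constructor
          · linarith [h.1]
          · linarith [h.2]
        have h4 := hlow _ h3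
        have h5 := g_split N (y + k)
        have h6 := pn_nonneg N (y + k)
        rw [← mul_pow]
        apply pow_le_pow_left₀ h6
        rw [h5]
        calc pn N (y + k) = c⁻¹ * (pn N (y + k) * c) := by field_simp
          _ ≤ c⁻¹ * (pn N (y + k) * g ((y + k) / 2 ^ N)) := by gcongr
      · rw [zero_pow (by norm_num)]
        positivity
  have h1 : ∀ N : ℕ, ∑' k : ℤ, gt N (y + k) ^ 2 = 1 := fun N => (gt_hasSum N y).tsum_eq
  simp only [h1] at hlim
  have := tendsto_nhds_unique hlim tendsto_const_nhds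
  rw [← this]
  exact hsum.hasSum

/-- high-pass filter -/
noncomputable def hf (y : ℝ) : ℂ := Complex.exp (-(2 * π * Complex.I * (y : ℂ))) * (m (y + 1 / 2) : ℂ)

lemma hf_norm (y : ℝ) : ‖hf y‖ = m (y + 1 / 2) := by
  unfold hf
  rw [norm_mul]
  have : ‖Complex.exp (-(2 * π * Complex.I * (y : ℂ)))‖ = 1 := by
    rw [show -(2 * (π : ℂ) * Complex.I * (y : ℂ)) = ((-(2 * π * y) : ℝ) : ℂ) * Complex.I by
      push_cast; ring]
    exact Complex.norm_exp_ofReal_mul_I _
  rw [this, one_mul, Complex.norm_real, Real.norm_of_nonneg (m_nonneg _)]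

/-- the Fourier transform of the wavelet -/
noncomputable def ph (y : ℝ) : ℂ := hf (y / 2) * (g (y / 2) : ℂ)

lemma esq (x : ℝ) : ‖((x : ℝ) : ℂ)‖ₑ ^ 2 = ENNReal.ofReal (x ^ 2) := by
  rw [← ofReal_norm, Complex.norm_real, ← ENNReal.ofReal_pow (norm_nonneg _)]
  congr 1
  rw [Real.norm_eq_abs, sq_abs]

lemma ph_good : Pool.Agent.Helper152.Wav.Good ph := by
  have hmc : Continuous m := m_smooth.continuous
  refine Pool.Agent.Helper152.WavFilt.good_of_filter (fun y => (g y : ℂ)) (fun y => (m y : ℂ)) hf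
    ?_ ?_ ?_ ?_ ?_ ?_ ?_ ?_ ?_ ?_ ?_
  · exact (Complex.continuous_ofReal.comp g_smooth.continuous).measurable
  · exact (Complex.continuous_ofReal.comp hmc).measurable
  · unfold hf
    exact Continuous.measurable (by fun_prop)
  · intro y; rw [m_add_one]
  · intro y
    unfold hf
    rw [show y + 1 + 1 / 2 = (y + 1 / 2) + 1 by ring, m_add_one]
    congr 1
    rw [Complex.exp_eq_exp_iff_exists_int]
    exact ⟨-1, by push_cast; ring⟩
  · refine Eventually.of_forall fun y => ?_
    rw [g_two]; push_cast; ring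
  · refine Eventually.of_forall fun y => ?_
    simp only [esq]
    rw [← ENNReal.ofReal_tsum_of_nonneg (fun _ => sq_nonneg _) (g_sum y).summable, (g_sum y).tsum_eq]
    simp
  · refine Eventually.of_forall fun y => ?_
    simp only [Complex.norm_real, Real.norm_eq_abs, sq_abs]
    exact m_sq y
  · refine Eventually.of_forall fun y => ?_
    rw [hf_norm, hf_norm, show y + 1 / 2 + 1 / 2 = y + 1 by ring, m_add_one]
    have := m_sq y
    linarith
  · refine Eventually.of_forall fun y => ?_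
    unfold hf
    rw [show y + 1 / 2 + 1 / 2 = y + 1 by ring, m_add_one]
    simp only [map_mul, Complex.conj_ofReal]
    have h1 : conj (Complex.exp (-(2 * π * Complex.I * ((y + 1 / 2 : ℝ) : ℂ))))
        = - conj (Complex.exp (-(2 * π * Complex.I * (y : ℂ)))) := by
      rw [← map_neg]
      congr 1
      rw [← Complex.exp_sub_pi_mul_I]
      congr 1
      push_cast
      ring
    rw [h1]
    ring
  · refine Eventually.of_forall fun y => ?_
    refine tendsto_const_nhds.congr' ?_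
    obtain ⟨N, hN⟩ := exists_N y
    filter_upwards [eventually_ge_atTop N] with j hj
    rw [g_small]
    · simp
    · have h2 : (0 : ℝ) < 2 ^ j := by positivity
      rw [abs_div, abs_of_pos h2, div_le_iff₀ h2]
      have : (2 : ℝ) ^ N ≤ 2 ^ j := pow_le_pow_right₀ (by norm_num) hj
      linarith

lemma ph_cont : Continuous ph := by
  have hmc : Continuous m := m_smooth.continuous
  have hgc : Continuous g := g_smooth.continuous
  unfold ph hf
  fun_prop

/-- the cosine close to the cycle -/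
lemma cos_near (k : ℕ) {δ : ℝ} (h0 : 0 < δ) (h1 : δ ≤ 1 / 200) :
    -(3 / 5) < Real.cos (2 * π * (2 ^ k / 3 + δ)) ∧ Real.cos (2 * π * (2 ^ k / 3 + δ)) ≠ -(1 / 2) ∧
      Real.cos (2 * π * (2 ^ k / 3 + δ)) < 0 := by
  have hmod : ∀ k : ℕ, ∃ q : ℕ, (2 : ℝ) ^ k / 3 = q + 1 / 3 ∨ (2 : ℝ) ^ k / 3 = (q : ℝ) + 2 / 3 := by
    intro k
    induction k with
    | zero => exact ⟨0, Or.inl (by norm_num)⟩
    | succ k ih =>
      obtain ⟨q, hq | hq⟩ := ih
      · exact ⟨2 * q, Or.inr (by rw [pow_succ]; push_cast; linarith)⟩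
      · exact ⟨2 * q + 1, Or.inl (by rw [pow_succ]; push_cast; linarith)⟩
  have hp := Real.pi_pos
  have hp4 := Real.pi_le_four
  have hcos : ∀ s : ℝ, 0 < |s| → |s| ≤ 1 / 200 → -(3 / 5) < Real.cos (2 * π / 3 + 2 * π * s) ∧
      Real.cos (2 * π / 3 + 2 * π * s) ≠ -(1 / 2) ∧ Real.cos (2 * π / 3 + 2 * π * s) < 0 := by
    intro s hs0 hs1
    have hs2 := abs_le.1 hs1
    have hne : Real.cos (2 * π / 3 + 2 * π * s) ≠ -(1 / 2) := by
      intro h
      have h2 : Real.cos (2 * π / 3) = -(1 / 2) := by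
        rw [show 2 * π / 3 = π - π / 3 by ring, Real.cos_pi_sub, Real.cos_pi_div_three]
      rw [← h2] at h
      have h3 := Real.injOn_cos (by constructor <;> nlinarith) (by constructor <;> nlinarith) h
      have h4 : 2 * π * s = 0 := by linarith
      have h5 : s = 0 := by
        rcases mul_eq_zero.1 h4 with h | h
        · exact absurd h (by positivity)
        · exact h
      rw [h5] at hs0
      simp at hs0
    have h2 : Real.cos (2 * π / 3 + 2 * π * s) = -Real.sin (π / 6 + 2 * π * s) := by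
      rw [show 2 * π / 3 + 2 * π * s = (π / 6 + 2 * π * s) + π / 2 by ring, Real.cos_add_pi_div_two]
    have h4 : |Real.sin (π / 6 + 2 * π * s) - Real.sin (π / 6)| ≤ |π / 6 + 2 * π * s - π / 6| :=
      Real.abs_sin_sub_sin_le (π / 6 + 2 * π * s) (π / 6)
    rw [Real.sin_pi_div_six] at h4
    have h6 : π / 6 + 2 * π * s - π / 6 = 2 * π * s := by ring
    rw [h6] at h4
    have h7 : |2 * π * s| ≤ 2 * 4 * (1 / 200) := by
      rw [abs_mul, abs_of_pos (by positivity : (0 : ℝ) < 2 * π)]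
      nlinarith [abs_nonneg s]
    have h8 := abs_le.1 (h4.trans h7)
    refine ⟨?_, hne, ?_⟩
    · rw [h2]; linarith [h8.2]
    · rw [h2]; linarith [h8.1]
  obtain ⟨q, hq | hq⟩ := hmod k
  · rw [hq]
    have e : Real.cos (2 * π * ((q : ℝ) + 1 / 3 + δ)) = Real.cos (2 * π / 3 + 2 * π * δ) := by
      rw [← Real.cos_add_nat_mul_two_pi (2 * π / 3 + 2 * π * δ) q]
      congr 1
      ring
    rw [e]
    exact hcos δ (by rwa [abs_of_pos h0]) (by rwa [abs_of_pos h0])
  · rw [hq]
    have e : Real.cos (2 * π * ((q : ℝ) + 2 / 3 + δ)) = Real.cos (2 * π / 3 + 2 * π * (-δ)) := by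
      rw [← Real.cos_neg (2 * π / 3 + 2 * π * (-δ)),
        ← Real.cos_add_nat_mul_two_pi (-(2 * π / 3 + 2 * π * (-δ))) (q + 1)]
      congr 1
      push_cast
      ring
    rw [e]
    exact hcos (-δ) (by rwa [abs_neg, abs_of_pos h0]) (by rwa [abs_neg, abs_of_pos h0])

/-- nonvanishing of the filter close to the cycle -/
lemma m_ne (k : ℕ) {δ : ℝ} (h0 : 0 < δ) (h1 : δ ≤ 1 / 200) : m (2 ^ k / 3 + δ) ≠ 0 := by
  obtain ⟨h2, h3, -⟩ := cos_near k h0 h1
  exact (Mu_pos h2 h3).ne'

/-- the support of the scaling function is unbounded -/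
lemma g_ne (n : ℕ) {t : ℝ} (h0 : 0 < t) (h1 : t ≤ 1 / 200) : g (2 ^ n / 3 + t) ≠ 0 := by
  obtain ⟨N, hN⟩ := exists_N (2 ^ n / 3 + t)
  rw [g_eq hN.le]
  unfold pn
  rw [Finset.prod_ne_zero_iff]
  intro j _
  have h2 : (0 : ℝ) < 2 ^ (j + 1) := by positivity
  have h2' : (1 : ℝ) ≤ 2 ^ (j + 1) := one_le_pow₀ (by norm_num)
  rcases le_or_gt (j + 1) n with hj | hj
  · obtain ⟨k, rfl⟩ := Nat.exists_eq_add_of_le hj
    have e : (2 ^ (j + 1 + k) / 3 + t) / 2 ^ (j + 1) = 2 ^ k / 3 + t / 2 ^ (j + 1) := by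
      rw [pow_add]; field_simp
    rw [e]
    refine m_ne k (by positivity) ?_
    rw [div_le_iff₀ h2]
    linarith
  · apply (m_pos_small _).ne'
    rw [abs_of_pos (by positivity), div_le_iff₀ h2]
    have h3 : (2 : ℝ) ^ (n + 1) ≤ 2 ^ (j + 1) := pow_le_pow_right₀ (by norm_num) hj
    rw [pow_succ] at h3
    have h4 : (1 : ℝ) ≤ 2 ^ n := one_le_pow₀ (by norm_num)
    linarith

lemma ph_ne (n : ℕ) : ∃ y : ℝ, (n : ℝ) ≤ y ∧ ph y ≠ 0 := by
  refine ⟨2 * (2 ^ (n + 1) / 3 + 1 / 200), ?_, ?_⟩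
  · have := lt_two_pow' n
    rw [pow_succ]
    linarith
  · unfold ph
    rw [show 2 * (2 ^ (n + 1) / 3 + 1 / 200) / 2 = (2 : ℝ) ^ (n + 1) / 3 + 1 / 200 by ring]
    apply mul_ne_zero
    · rw [← norm_ne_zero_iff, hf_norm, m_half]
      obtain ⟨-, -, h3⟩ := cos_near (n + 1) (δ := 1 / 200) (by norm_num) le_rfl
      exact (Mu_pos (by linarith) (by linarith)).ne'
    · exact_mod_cast g_ne (n + 1) (by norm_num) le_rfl

end Pool.Agent.Q83.Mey
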